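import Pool.Agent.NDR.StmtsP

/-! NDR, row WAL: wall crossing. -/

set_option autoImplicit false

namespace Pool.Agent.NDR.H60

open Finset Pool.Agent.NDR

section

variable {ι : Type} [Fintype ι]

/-- pairing of a rational functional with a real vector -/
noncomputable def pq (χ : ι → ℚ) (q : ι → ℝ) : ℝ := ∑ i, ((χ i : ℚ) : ℝ) * q i

/-- an integer functional as a rational one -/
def zq (ψ : ι → ℤ) : ι → ℚ := fun i => (ψ i : ℚ)

theorem pr_zq (ψ a : ι → ℤ) : pr (zq ψ) a = ((pr ψ a : ℤ) : ℚ) := by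
  unfold pr zq
  push_cast
  rfl

theorem pq_add (χ : ι → ℚ) (q r : ι → ℝ) : pq χ (fun i => q i + r i) = pq χ q + pq χ r := by
  unfold pq
  rw [← Finset.sum_add_distrib]
  exact Finset.sum_congr rfl fun i _ => mul_add _ _ _

theorem pq_smul (χ : ι → ℚ) (t : ℝ) (q : ι → ℝ) : pq χ (fun i => t * q i) = t * pq χ q := by
  unfold pq
  rw [Finset.mul_sum]
  exact Finset.sum_congr rfl fun i _ => by ring

theorem pq_int (χ : ι → ℚ) (a : ι → ℤ) : pq χ (fun i => ((a i : ℤ) : ℝ)) = ((pr χ a : ℚ) : ℝ) := by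
  unfold pq pr
  push_cast
  rfl

theorem pq_congr {I : Finset ι} {χ : ι → ℚ} (hχ : ∀ i, i ∉ I → χ i = 0) {q r : ι → ℝ}
    (h : ∀ i ∈ I, q i = r i) : pq χ q = pq χ r := by
  unfold pq
  refine Finset.sum_congr rfl fun i _ => ?_
  by_cases hi : i ∈ I
  · rw [h i hi]
  · rw [hχ i hi]; simp

theorem pq_sum (χ : ι → ℚ) (A : Finset (ι → ℤ)) (l : (ι → ℤ) → ℝ) :
    pq χ (fun i => ∑ a ∈ A, l a * ((a i : ℤ) : ℝ)) = ∑ a ∈ A, l a * ((pr χ a : ℚ) : ℝ) := by
  unfold pq pr
  simp_rw [Finset.mul_sum]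
  rw [Finset.sum_comm]
  refine Finset.sum_congr rfl fun a _ => ?_
  push_cast
  rw [Finset.mul_sum]
  exact Finset.sum_congr rfl fun i _ => by ring

theorem pq_comb {I : Finset ι} {χ : ι → ℚ} (hχ : ∀ i, i ∉ I → χ i = 0) {A : Finset (ι → ℤ)}
    {l : (ι → ℤ) → ℝ} {q : ι → ℝ} (h : ∀ i ∈ I, q i = ∑ a ∈ A, l a * ((a i : ℤ) : ℝ)) :
    pq χ q = ∑ a ∈ A, l a * ((pr χ a : ℚ) : ℝ) := by
  rw [pq_congr hχ h, pq_sum]

theorem pq_shv (χ : ι → ℚ) (v : ι → ℝ) (e : ι → ℤ) :
    pq χ (shv v e) = ((pr χ e : ℚ) : ℝ) + pq χ v := by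
  rw [← pq_int, ← pq_add]
  rfl

theorem pq_mem (χ : ι → ℚ) (v : ι → ℝ) (e : ι → ℤ) :
    pq χ (shv v e) ∈ Submodule.span ℚ (insert (1 : ℝ) (Set.range v)) := by
  rw [pq_shv]
  apply Submodule.add_mem
  · have h1 : ((pr χ e : ℚ) : ℝ) = (pr χ e : ℚ) • (1 : ℝ) := by
      rw [Rat.smul_def, mul_one]
    rw [h1]
    exact Submodule.smul_mem _ _ (Submodule.subset_span (Set.mem_insert _ _))
  · unfold pq
    apply Submodule.sum_mem
    intro i _
    rw [← Rat.smul_def]
    exact Submodule.smul_mem _ _ (Submodule.subset_span (Set.mem_insert_of_mem _ ⟨i, rfl⟩))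

omit [Fintype ι] in
theorem zet_use {A : Finset (ι → ℤ)} {v : ι → ℝ} {ζ : (ι → ℤ) → ℝ}
    (hζ : ∀ c : (ι → ℤ) → ℝ,
      (∀ a ∈ A, c a ∈ Submodule.span ℚ (insert (1 : ℝ) (Set.range v))) →
      ∑ a ∈ A, ζ a * c a = 0 → ∀ a ∈ A, c a = 0) {c₁ c₂ : ℝ}
    (h₁ : c₁ ∈ Submodule.span ℚ (insert (1 : ℝ) (Set.range v)))
    (h₂ : c₂ ∈ Submodule.span ℚ (insert (1 : ℝ) (Set.range v))) {α₁ α₂ : (ι → ℤ) → ℚ}
    (h : c₁ * ∑ a ∈ A, ζ a * ((α₁ a : ℚ) : ℝ) = c₂ * ∑ a ∈ A, ζ a * ((α₂ a : ℚ) : ℝ)) :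
    ∀ a ∈ A, c₁ * ((α₁ a : ℚ) : ℝ) = c₂ * ((α₂ a : ℚ) : ℝ) := by
  intro a ha
  have h3 := hζ (fun a => c₁ * ((α₁ a : ℚ) : ℝ) - c₂ * ((α₂ a : ℚ) : ℝ)) (fun a _ => by
    apply Submodule.sub_mem
    · rw [mul_comm, ← Rat.smul_def]
      exact Submodule.smul_mem _ _ h₁
    · rw [mul_comm, ← Rat.smul_def]
      exact Submodule.smul_mem _ _ h₂) (by
    rw [Finset.mul_sum, Finset.mul_sum] at h
    rw [← sub_eq_zero] at h
    rw [← h, ← Finset.sum_sub_distrib]
    exact Finset.sum_congr rfl fun a _ => by ring) a ha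
  exact sub_eq_zero.mp h3

end

theorem wal (h1 : MweStmt) (h2 : ZetStmt) : WalStmt := by
  classical
  intro ι _ I A v
  obtain ⟨Ψ, hΨ0, hΨ⟩ := h1 ι I A
  obtain ⟨ζ, hζ0, hζ⟩ := h2 ι A v
  have hC : ∀ q : ι → ℝ, InC I A q ↔ ∀ ψ ∈ Ψ, 0 ≤ pq (zq ψ) q := by
    intro q
    have := hΨ ℝ q
    unfold InC
    rw [this]
    refine forall₂_congr fun ψ _ => ?_
    unfold pq zq
    push_cast
    rfl
  set z : ι → ℝ := fun i => ∑ a ∈ A, ζ a * ((a i : ℤ) : ℝ) with hz
  have hq0 : ∀ ψ ∈ Ψ, ∀ i, i ∉ I → zq ψ i = 0 := by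
    intro ψ hψ i hi
    unfold zq
    rw [hΨ0 ψ hψ i hi]; simp
  have F1 : ∀ ψ ∈ Ψ, ∀ a ∈ A, 0 ≤ pr ψ a := by
    intro ψ hψ a ha
    have h3 : InC I A (fun i => ((a i : ℤ) : ℝ)) := by
      refine ⟨fun b => if b = a then 1 else 0, fun b => by
        dsimp only
        split_ifs <;> norm_num, fun i _ => ?_⟩
      rw [Finset.sum_eq_single a]
      · simp
      · intro b _ hb; simp [hb]
      · intro hb; exact absurd ha hb
    have h4 := (hC _).1 h3 ψ hψ
    rw [pq_int, pr_zq] at h4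
    exact_mod_cast h4
  set Ψp : Finset (ι → ℤ) := Ψ.filter fun ψ => ∃ a ∈ A, 0 < pr ψ a with hΨp
  have hzq : ∀ χ : ι → ℚ, pq χ z = ∑ a ∈ A, ζ a * ((pr χ a : ℚ) : ℝ) := fun χ => pq_sum χ A ζ
  have F2 : ∀ ψ ∈ Ψp, 0 < pq (zq ψ) z := by
    intro ψ hψ
    rw [hΨp, Finset.mem_filter] at hψ
    obtain ⟨hψ, b, hb, hb0⟩ := hψ
    rw [hzq]
    apply Finset.sum_pos'
    · intro a ha
      have := F1 ψ hψ a ha
      rw [pr_zq]
      have h5 : (0 : ℝ) ≤ (((pr ψ a : ℤ) : ℚ) : ℝ) := by exact_mod_cast this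
      exact mul_nonneg (hζ0 a).le h5
    · refine ⟨b, hb, ?_⟩
      rw [pr_zq]
      have h5 : (0 : ℝ) < (((pr ψ b : ℤ) : ℚ) : ℝ) := by exact_mod_cast hb0
      exact mul_pos (hζ0 b) h5
  have F3 : ∀ ψ ∈ Ψ, ψ ∉ Ψp → ∀ q, InS I A q → pq (zq ψ) q = 0 := by
    rintro ψ hψ hn q ⟨l, hl⟩
    rw [pq_comb (hq0 ψ hψ) hl]
    apply Finset.sum_eq_zero
    intro a ha
    have h6 : pr ψ a = 0 := by
      have h7 := F1 ψ hψ a ha
      by_contra hne
      apply hn
      rw [hΨp, Finset.mem_filter]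
      exact ⟨hψ, a, ha, lt_of_le_of_ne h7 (Ne.symm hne)⟩
    rw [pr_zq, h6]; simp
  set TT : (ι → ℤ) → Finset ℝ := fun e =>
    insert 0 (Ψp.image fun ψ => -(pq (zq ψ) (shv v e)) / pq (zq ψ) z) with hTT
  have hTn : ∀ e, (TT e).Nonempty := fun e => Finset.insert_nonempty _ _
  set time : (ι → ℤ) → ℝ := fun e => (TT e).max' (hTn e) with htime
  have T0 : ∀ e, 0 ≤ time e := fun e => Finset.le_max' _ _ (Finset.mem_insert_self _ _)
  have T1 : ∀ e, ∀ ψ ∈ Ψp, -(pq (zq ψ) (shv v e)) / pq (zq ψ) z ≤ time e := fun e ψ hψ =>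
    Finset.le_max' (TT e) _ (Finset.mem_insert_of_mem (Finset.mem_image_of_mem
      (fun ψ => -(pq (zq ψ) (shv v e)) / pq (zq ψ) z) hψ))
  have T2 : ∀ e, time e = 0 ∨ ∃ ψ ∈ Ψp, time e = -(pq (zq ψ) (shv v e)) / pq (zq ψ) z := by
    intro e
    have h8 : time e ∈ TT e := Finset.max'_mem (TT e) (hTn e)
    rcases Finset.mem_insert.mp h8 with h9 | h9
    · exact Or.inl h9
    · obtain ⟨ψ, hψ, h10⟩ := Finset.mem_image.mp h9
      exact Or.inr ⟨ψ, hψ, h10.symm⟩
  have T3 : ∀ e s, 0 ≤ s → (∀ ψ ∈ Ψp, -(pq (zq ψ) (shv v e)) / pq (zq ψ) z ≤ s) → time e ≤ s := by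
    intro e s hs h11
    apply Finset.max'_le
    intro y hy
    rcases Finset.mem_insert.mp hy with h9 | h9
    · rw [h9]; exact hs
    · obtain ⟨ψ, hψ, rfl⟩ := Finset.mem_image.mp h9
      exact h11 ψ hψ
  have hdiv : ∀ e, ∀ ψ ∈ Ψp, ∀ s, -(pq (zq ψ) (shv v e)) / pq (zq ψ) z ≤ s ↔
      0 ≤ pq (zq ψ) (shv v e) + s * pq (zq ψ) z := by
    intro e ψ hψ s
    rw [div_le_iff₀ (F2 ψ hψ)]
    constructor <;> intro h12 <;> linarith
  -- the cone along the ray
  have L1 : ∀ e s, InS I A (shv v e) → (InC I A (fun i => shv v e i + s * z i) ↔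
      ∀ ψ ∈ Ψp, 0 ≤ pq (zq ψ) (shv v e) + s * pq (zq ψ) z) := by
    intro e s hS
    rw [hC]
    have h13 : ∀ ψ, pq (zq ψ) (fun i => shv v e i + s * z i) =
        pq (zq ψ) (shv v e) + s * pq (zq ψ) z := by
      intro ψ
      rw [pq_add, pq_smul]
    constructor
    · intro h14 ψ hψ
      rw [← h13]
      exact h14 ψ (Finset.mem_filter.mp hψ).1
    · intro h14 ψ hψ
      by_cases hp : ψ ∈ Ψp
      · rw [h13]; exact h14 ψ hp
      · rw [F3 ψ hψ hp]
        obtain ⟨l, hl⟩ := hS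
        refine ⟨fun a => l a + s * ζ a, fun i hi => ?_⟩
        show shv v e i + s * z i = _
        rw [hl i hi, hz, Finset.mul_sum, ← Finset.sum_add_distrib]
        exact Finset.sum_congr rfl fun a _ => by ring
  refine ⟨time, T0, ?_, ?_, ?_, ?_⟩
  · intro e hS
    have h15 := L1 e 0 hS
    have h16 : (fun i => shv v e i + 0 * z i) = shv v e := by
      funext i; ring
    rw [h16] at h15
    rw [h15]
    constructor
    · intro h17 ψ hψ
      rw [← hdiv e ψ hψ, ← h17]
      exact T1 e ψ hψ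
    · intro h17
      apply le_antisymm _ (T0 e)
      exact T3 e 0 le_rfl fun ψ hψ => (hdiv e ψ hψ 0).2 (h17 ψ hψ)
  · intro e a ha
    apply T3 _ _ (T0 e)
    intro ψ hψ
    refine le_trans ?_ (T1 e ψ hψ)
    apply div_le_div_of_nonneg_right _ (F2 ψ hψ).le
    rw [pq_shv, pq_shv]
    have h18 : pr (zq ψ) (e + a) = pr (zq ψ) e + pr (zq ψ) a := by
      unfold pr
      rw [← Finset.sum_add_distrib]
      refine Finset.sum_congr rfl fun i _ => ?_
      simp only [Pi.add_apply]
      push_cast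
      ring
    rw [h18, pr_zq ψ a]
    have h19 : (0 : ℝ) ≤ (((pr ψ a : ℤ) : ℚ) : ℝ) := by
      exact_mod_cast F1 ψ (Finset.mem_filter.mp hψ).1 a ha
    push_cast at h19 ⊢
    linarith
  · intro t
    have h20 : {s : ℝ | s ≤ t ∧ ∃ e, time e = s} ⊆ insert 0 (⋃ ψ ∈ Ψp,
        (fun n : ℤ => -((n : ℝ) + pq (zq ψ) v) / pq (zq ψ) z) ''
          (Set.Icc ⌊-(t * pq (zq ψ) z) - pq (zq ψ) v⌋ ⌈-pq (zq ψ) v⌉)) := by
      rintro s ⟨hs, e, he⟩
      rcases T2 e with h21 | ⟨ψ, hψ, h21⟩
      · left; rw [← he, h21]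
      · right
        simp only [Set.mem_iUnion]
        refine ⟨ψ, hψ, pr ψ e, ?_, ?_⟩
        · have hp := F2 ψ hψ
          have h22 := T0 e
          rw [h21, pq_shv, pr_zq] at h22
          have h23 : time e ≤ t := by rw [he]; exact hs
          rw [h21, pq_shv, pr_zq] at h23
          rw [le_div_iff₀ hp] at h22
          rw [div_le_iff₀ hp] at h23
          push_cast at h22 h23
          constructor
          · have h24 : (⌊-(t * pq (zq ψ) z) - pq (zq ψ) v⌋ : ℝ) ≤ ((pr ψ e : ℤ) : ℝ) := by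
              refine le_trans (Int.floor_le _) ?_
              linarith
            exact_mod_cast h24
          · have h24 : ((pr ψ e : ℤ) : ℝ) ≤ (⌈-pq (zq ψ) v⌉ : ℝ) := by
              refine le_trans ?_ (Int.le_ceil _)
              linarith
            exact_mod_cast h24
        · show -(((pr ψ e : ℤ) : ℝ) + pq (zq ψ) v) / pq (zq ψ) z = s
          rw [← he, h21, pq_shv, pr_zq]
          push_cast
          rfl
    refine Set.Finite.subset ?_ h20
    apply Set.Finite.insert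
    apply Set.Finite.biUnion (Finset.finite_toSet _)
    intro ψ _
    exact (Set.finite_Icc _ _).image _
  · intro e₀ hS₀ ht
    set t := time e₀ with htt
    obtain ⟨ψ, hψp, hψt⟩ : ∃ ψ ∈ Ψp, t = -(pq (zq ψ) (shv v e₀)) / pq (zq ψ) z := by
      rcases T2 e₀ with h21 | h21
      · exact absurd h21 ht.ne'
      · exact h21
    obtain ⟨hψ, b, hb, hb0⟩ := Finset.mem_filter.mp hψp
    have hz0 := F2 ψ hψp
    have hc0 : pq (zq ψ) (shv v e₀) = -(t * pq (zq ψ) z) := by
      rw [hψt]; field_simp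
    have hc0n : pq (zq ψ) (shv v e₀) < 0 := by
      rw [hc0]; exact neg_neg_of_pos (mul_pos ht hz0)
    set v' : ι → ℝ := fun i => v i + t * z i with hv'
    have hv'' : ∀ e, shv v' e = fun i => shv v e i + t * z i := by
      intro e; funext i
      show ((e i : ℤ) : ℝ) + (v i + t * z i) = ((e i : ℤ) : ℝ) + v i + t * z i
      ring
    -- points of the slice
    have P1 : ∀ e, InS I A (shv v e) → time e = t →
        InC I (A.filter fun a => pr ψ a = 0) (shv v' e) ∧
          ∀ a ∈ A, 0 < pr ψ a → time (e + a) ≠ t ∨ True := by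
      intro e hS he
      refine ⟨?_, fun _ _ _ => Or.inr trivial⟩
      obtain ⟨ψ₁, hψ₁p, hψ₁t⟩ : ∃ ψ₁ ∈ Ψp, t = -(pq (zq ψ₁) (shv v e)) / pq (zq ψ₁) z := by
        rcases T2 e with h21 | ⟨ψ₁, h22, h23⟩
        · rw [he] at h21; exact absurd h21 ht.ne'
        · exact ⟨ψ₁, h22, by rw [← he]; exact h23⟩
      have hψ₁ := (Finset.mem_filter.mp hψ₁p).1
      have hz1 := F2 ψ₁ hψ₁p
      have hc1 : pq (zq ψ₁) (shv v e) = -(t * pq (zq ψ₁) z) := by
        rw [hψ₁t]; field_simp
      have hc1n : pq (zq ψ₁) (shv v e) < 0 := by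
        rw [hc1]; exact neg_neg_of_pos (mul_pos ht hz1)
      have hprop := zet_use hζ (pq_mem (zq ψ) v e₀) (pq_mem (zq ψ₁) v e)
        (α₁ := fun a => pr (zq ψ₁) a) (α₂ := fun a => pr (zq ψ) a) (by
          rw [← hzq, ← hzq, hc0, hc1]; ring)
      have hsame : ∀ a ∈ A, pr ψ₁ a = 0 ↔ pr ψ a = 0 := by
        intro a ha
        have h24 := hprop a ha
        simp only [pr_zq] at h24
        constructor
        · intro h25
          rw [h25] at h24
          simp only [Int.cast_zero, Rat.cast_zero, mul_zero] at h24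
          rcases mul_eq_zero.mp h24.symm with h26 | h26
          · exact absurd h26 hc1n.ne
          · exact_mod_cast h26
        · intro h25
          rw [h25] at h24
          simp only [Int.cast_zero, Rat.cast_zero, mul_zero] at h24
          rcases mul_eq_zero.mp h24 with h26 | h26
          · exact absurd h26 hc0n.ne
          · exact_mod_cast h26
      have hcone : InC I A (shv v' e) := by
        rw [hv'', L1 e t hS]
        intro ψ' hψ'
        rw [← hdiv e ψ' hψ', ← he]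
        exact T1 e ψ' hψ'
      obtain ⟨l, hl0, hl⟩ := hcone
      have hzero : pq (zq ψ₁) (shv v' e) = 0 := by
        rw [hv'', pq_add, pq_smul, hc1]; ring
      rw [pq_comb (hq0 ψ₁ hψ₁) hl, Finset.sum_eq_zero_iff_of_nonneg] at hzero
      · refine ⟨l, hl0, fun i hi => ?_⟩
        rw [hl i hi, Finset.sum_filter]
        refine Finset.sum_congr rfl fun a ha => ?_
        by_cases h27 : pr ψ a = 0
        · rw [if_pos h27]
        · rw [if_neg h27]
          have h28 := hzero a ha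
          rw [pr_zq] at h28
          have h29 : l a = 0 := by
            rcases mul_eq_zero.mp h28 with h30 | h30
            · exact h30
            · exfalso
              apply h27
              rw [← hsame a ha]
              exact_mod_cast h30
          rw [h29, zero_mul]
      · intro a ha
        rw [pr_zq]
        have h31 : (0 : ℝ) ≤ (((pr ψ₁ a : ℤ) : ℚ) : ℝ) := by exact_mod_cast F1 ψ₁ hψ₁ a ha
        exact mul_nonneg (hl0 a) h31
    have P2 : ∀ e, InC I (A.filter fun a => pr ψ a = 0) (shv v' e) →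
        pq (zq ψ) (shv v' e) = 0 := by
      rintro e ⟨l, hl0, hl⟩
      rw [pq_comb (hq0 ψ hψ) hl]
      apply Finset.sum_eq_zero
      intro a ha
      rw [pr_zq, (Finset.mem_filter.mp ha).2]
      simp
    refine ⟨ψ, v', hΨ0 ψ hψ, F1 ψ hψ, ⟨b, hb, hb0⟩, ?_, ?_, ?_⟩
    · intro e
      constructor
      · rintro ⟨hS, he⟩
        exact (P1 e hS he).1
      · intro hc
        have hzero := P2 e hc
        obtain ⟨l, hl0, hl⟩ := hc
        have hS : InS I A (shv v e) := by
          refine ⟨fun a => (if pr ψ a = 0 then l a else 0) - t * ζ a, fun i hi => ?_⟩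
          have h32 := hl i hi
          rw [hv''] at h32
          have h33 : shv v e i = (∑ a ∈ A.filter (fun a => pr ψ a = 0), l a * ((a i : ℤ) : ℝ)) -
              t * z i := by
            rw [← h32]; ring
          rw [h33, Finset.sum_filter, hz, Finset.mul_sum, ← Finset.sum_sub_distrib]
          refine Finset.sum_congr rfl fun a _ => ?_
          dsimp only
          by_cases h47 : pr ψ a = 0
          · rw [if_pos h47, if_pos h47]; ring
          · rw [if_neg h47, if_neg h47]; ring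
        refine ⟨hS, ?_⟩
        apply le_antisymm
        · have hcone : InC I A (shv v' e) := by
            refine ⟨fun a => if pr ψ a = 0 then l a else 0, fun a => by
              dsimp only
              split_ifs
              · exact hl0 a
              · exact le_rfl, fun i hi => ?_⟩
            rw [hl i hi, Finset.sum_filter]
            refine Finset.sum_congr rfl fun a _ => ?_
            dsimp only
            by_cases h47 : pr ψ a = 0
            · rw [if_pos h47, if_pos h47]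
            · rw [if_neg h47, if_neg h47, zero_mul]
          rw [hv'', L1 e t hS] at hcone
          exact T3 e t ht.le fun ψ' hψ' => (hdiv e ψ' hψ' t).2 (hcone ψ' hψ')
        · have h34 := T1 e ψ hψp
          refine le_trans (le_of_eq ?_) h34
          rw [hv'', pq_add, pq_smul] at hzero
          rw [eq_div_iff hz0.ne']
          linarith
    · intro e hS he a ha ha0
      have h35 : time (e + a) ≤ t := by
        rw [← he]
        apply T3 _ _ (T0 e)
        intro ψ' hψ'
        refine le_trans ?_ (T1 e ψ' hψ')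
        apply div_le_div_of_nonneg_right _ (F2 ψ' hψ').le
        rw [pq_shv, pq_shv]
        have h18 : pr (zq ψ') (e + a) = pr (zq ψ') e + pr (zq ψ') a := by
          unfold pr
          rw [← Finset.sum_add_distrib]
          refine Finset.sum_congr rfl fun i _ => ?_
          simp only [Pi.add_apply]
          push_cast
          ring
        rw [h18, pr_zq ψ' a]
        have h19 : (0 : ℝ) ≤ (((pr ψ' a : ℤ) : ℚ) : ℝ) := by
          exact_mod_cast F1 ψ' (Finset.mem_filter.mp hψ').1 a ha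
        push_cast at h19 ⊢
        linarith
      refine lt_of_le_of_ne h35 fun h36 => ?_
      have hSa : InS I A (shv v (e + a)) := by
        obtain ⟨l, hl⟩ := hS
        refine ⟨fun b => l b + if b = a then 1 else 0, fun i hi => ?_⟩
        have h37 : shv v (e + a) i = shv v e i + ((a i : ℤ) : ℝ) := by
          unfold shv
          simp only [Pi.add_apply]
          push_cast
          ring
        rw [h37, hl i hi]
        simp only [add_mul, Finset.sum_add_distrib]
        congr 1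
        rw [Finset.sum_eq_single a]
        · simp
        · intro b _ hb'; simp [hb']
        · intro hb'; exact absurd ha hb'
      have h38 := P2 (e + a) (P1 (e + a) hSa h36).1
      have h39 := P2 e (P1 e hS he).1
      have h40 : shv v' (e + a) = fun i => shv v' e i + ((a i : ℤ) : ℝ) := by
        funext i
        unfold shv
        simp only [Pi.add_apply]
        push_cast
        ring
      rw [h40, pq_add, h39, pq_int, pr_zq] at h38
      have h41 : (0 : ℝ) < (((pr ψ a : ℤ) : ℚ) : ℝ) := by exact_mod_cast ha0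
      linarith
    · intro χ hχ0 hχ
      have hy := (P1 e₀ hS₀ rfl).1
      obtain ⟨l, hl0, hl⟩ := hy
      have hχy : pq χ (shv v' e₀) = 0 := by
        rw [pq_comb hχ0 hl]
        apply Finset.sum_eq_zero
        intro a ha
        obtain ⟨haA, ha0⟩ := Finset.mem_filter.mp ha
        rw [hχ a haA ha0]
        simp
      have hc : pq χ (shv v e₀) = -(t * pq χ z) := by
        rw [hv'', pq_add, pq_smul] at hχy
        linarith
      have hprop := zet_use hζ (pq_mem (zq ψ) v e₀) (pq_mem χ v e₀)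
        (α₁ := fun a => pr χ a) (α₂ := fun a => pr (zq ψ) a) (by
          rw [← hzq, ← hzq, hc0, hc]; ring)
      refine ⟨pr χ b / ((pr ψ b : ℤ) : ℚ), fun a ha => ?_⟩
      have h42 := hprop a ha
      have h43 := hprop b hb
      simp only [pr_zq] at h42 h43
      have hbn : ((pr ψ b : ℤ) : ℝ) ≠ 0 := by
        exact_mod_cast hb0.ne'
      have h44 : ((pr χ a : ℚ) : ℝ) = ((pr χ b / ((pr ψ b : ℤ) : ℚ) * ((pr ψ a : ℤ) : ℚ) : ℚ) : ℝ) := by
        push_cast
        push_cast at h42 h43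
        have h45 : pq χ (shv v e₀) = pq (zq ψ) (shv v e₀) * ((pr χ b : ℚ) : ℝ) / ((pr ψ b : ℤ) : ℝ) := by
          rw [eq_div_iff hbn]
          exact h43.symm
        rw [h45] at h42
        have h46 := hc0n.ne
        field_simp at h42 ⊢
        linarith
      exact_mod_cast h44

end Pool.Agent.NDR.H60
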